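import Pool.Agent.Helper39.Net.Main

/-!
# MP_573362_gt

For every regular tetrahedron in Euclidean three-space with vertex set `T` and for every `N` there
is an irreducible geodesic net whose set of unbalanced vertices is `T` and which has more than `N`
balanced vertices.
-/

namespace Pool.Agent.Results.MP_573362_gt.UnboundedNets

/-- The finite graph `H`, whose vertices are points of Euclidean three-space and whose edges are
drawn as the straight segments between their (distinct) end points, is a geodesic net whose set of
unbalanced vertices is `T`: `H` is finite and connected, contains all points of `T`, no edge joins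
two points of `T`, two different edges meet at most in a common end point, and every vertex not in
`T` has degree at least `3` and is balanced (the unit vectors pointing along its edges sum
to `0`). -/
structure IsGeodesicNet (T : Set (EuclideanSpace ℝ (Fin 3)))
    (H : (⊤ : SimpleGraph (EuclideanSpace ℝ (Fin 3))).Subgraph) : Prop where
  finite : H.verts.Finite
  connected : H.Connected
  boundary : T ⊆ H.verts
  no_boundary_edge : ∀ a ∈ T, ∀ b ∈ T, ¬ H.Adj a b
  embedded : ∀ a b c d, H.Adj a b → H.Adj c d → s(a, b) ≠ s(c, d) →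
    segment ℝ a b ∩ segment ℝ c d ⊆ {a, b} ∩ {c, d}
  degree : ∀ v ∈ H.verts, v ∉ T → 3 ≤ (H.neighborSet v).ncard
  balanced : ∀ v ∈ H.verts, v ∉ T → ∑ᶠ w ∈ H.neighborSet v, ‖w - v‖⁻¹ • (w - v) = 0

/-- `H` is an irreducible geodesic net with set of unbalanced vertices `T`: it is a geodesic net,
and no graph formed by a proper subset of its edges is a geodesic net with the same set of
unbalanced vertices. -/
def IsIrreducible (T : Set (EuclideanSpace ℝ (Fin 3)))
    (H : (⊤ : SimpleGraph (EuclideanSpace ℝ (Fin 3))).Subgraph) : Prop :=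
  IsGeodesicNet T H ∧
    ∀ H' : (⊤ : SimpleGraph (EuclideanSpace ℝ (Fin 3))).Subgraph,
      H'.edgeSet ⊂ H.edgeSet → ¬ IsGeodesicNet T H'

theorem isGeodesicNet_iff (T : Set (EuclideanSpace ℝ (Fin 3)))
    (H : (⊤ : SimpleGraph (EuclideanSpace ℝ (Fin 3))).Subgraph) :
    IsGeodesicNet T H ↔ Helper39.Net.IsGeodesicNet T H :=
  ⟨fun h => ⟨h.finite, h.connected, h.boundary, h.no_boundary_edge, h.embedded, h.degree,
    h.balanced⟩, fun h => ⟨h.finite, h.connected, h.boundary, h.no_boundary_edge, h.embedded,
    h.degree, h.balanced⟩⟩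

/-- Let `A 0, A 1, A 2, A 3` be the vertices of a regular tetrahedron. For every `N` there is an
irreducible geodesic net with set of unbalanced vertices `{A 0, A 1, A 2, A 3}` and with more than
`N` balanced vertices. -/
theorem result (A : Fin 4 → EuclideanSpace ℝ (Fin 3)) (r : ℝ) (hr : 0 < r)
    (hA : ∀ i j, i ≠ j → dist (A i) (A j) = r) (N : ℕ) :
    ∃ H : (⊤ : SimpleGraph (EuclideanSpace ℝ (Fin 3))).Subgraph,
      IsIrreducible (Set.range A) H ∧ N < (H.verts \ Set.range A).ncard := by
  obtain ⟨H, hH, hN⟩ := Helper39.Net.main A ⟨r, hr, hA⟩ N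
  refine ⟨H, ⟨(isGeodesicNet_iff _ _).2 hH.1, fun H' hH' hn => ?_⟩, hN⟩
  exact hH.2 H' hH' ((isGeodesicNet_iff _ _).1 hn)

end Pool.Agent.Results.MP_573362_gt.UnboundedNets
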